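import Mathlib

namespace Pool.Agent.Results.MP_1adc52_al.Inter

open Filter Pointwise

universe u

variable {G : Type u} [Group G] [Infinite G]

omit [Group G] in
lemma ev_ne {f : G → G} (hf : Function.Injective f) (p : G) : ∀ᶠ y in hyperfilter G, f y ≠ p :=
  compl_mem_hyperfilter_of_finite
    (Set.Subsingleton.finite (s := {y | f y = p}) (fun _ h _ h' => hf (h.trans h'.symm)))

omit [Group G] in
lemma ev_inf {p : G → Prop} (h : ∀ᶠ y in hyperfilter G, p y) : {y | p y}.Infinite :=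
  fun hf => notMem_hyperfilter_of_finite hf h

omit [Infinite G] in
lemma pick {s t : G} (h1 : {r | r * r = s}.Infinite) (h2 : {r | r * r = t}.Infinite) :
    ∃ A : Set G, A.Finite ∧ s ∈ A * A ∧ t ∈ A * A ∧ 1 ∉ A * A * A := by
  obtain ⟨a, ha, ha'⟩ := (h1.diff (Set.toFinite {s⁻¹, t⁻¹})).nonempty
  obtain ⟨c, hc, hc'⟩ := (h2.diff (Set.toFinite {s⁻¹, t⁻¹})).nonempty
  refine ⟨{a, c}, Set.toFinite _, ⟨a, by simp, a, by simp, ha⟩, ⟨c, by simp, c, by simp, hc⟩, ?_⟩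
  have key : ∀ r ∈ ({a, c} : Set G), ∀ w ∈ ({a, c} : Set G), r * r * w ≠ 1 := by
    intro r hr w hw e
    have h3 : w ∈ ({s⁻¹, t⁻¹} : Set G) := by
      rw [← inv_eq_of_mul_eq_one_right e]
      rcases hr with rfl | rfl
      · exact Or.inl (congrArg _ ha)
      · exact Or.inr (congrArg _ hc)
    rcases hw with rfl | rfl
    · exact ha' h3
    · exact hc' h3
  rintro ⟨_, ⟨u, hu, v, hv, rfl⟩, w, hw, e⟩
  have : u = v ∨ v = w ∨ w = u := by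
    rcases hu with rfl | rfl <;> rcases hv with rfl | rfl <;> rcases hw with rfl | rfl <;> simp
  rcases this with rfl | rfl | rfl
  · exact key _ hu _ hw e
  · exact key _ hv _ hu (mul_eq_one_comm.1 (by simpa [mul_assoc] using e))
  · exact key _ hu _ hv (by simpa [mul_assoc] using mul_eq_one_comm.1 e)

lemma base : ∃ A : Set G, A.Finite ∧ 1 ∉ A * A * A ∧
    ∀ p, p ∉ A * A → (∀ᶠ x in hyperfilter G, x * x ≠ p) ∧
      ∀ᶠ x in hyperfilter G, ∀ᶠ y in hyperfilter G, (x * y)⁻¹ * (x * y)⁻¹ ≠ p := by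
  have i2 : ∀ {t : G}, (∀ᶠ x in hyperfilter G, ∀ᶠ y in hyperfilter G, (x * y)⁻¹ * (x * y)⁻¹ = t) →
      {r | r * r = t}.Infinite := by
    intro t h
    obtain ⟨x, hx⟩ := h.exists
    refine Set.infinite_of_injOn_mapsTo (f := fun y => (x * y)⁻¹) (fun a _ b _ e => by
      simpa using e) (fun y hy => hy) (ev_inf hx)
  have u1 : ∀ {s p : G}, (∀ᶠ x in hyperfilter G, x * x = s) → s ≠ p →
      ∀ᶠ x in hyperfilter G, x * x ≠ p := fun h e => h.mono (fun _ hx => hx ▸ e)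
  have u2 : ∀ {s p : G},
      (∀ᶠ x in hyperfilter G, ∀ᶠ y in hyperfilter G, (x * y)⁻¹ * (x * y)⁻¹ = s) → s ≠ p →
      ∀ᶠ x in hyperfilter G, ∀ᶠ y in hyperfilter G, (x * y)⁻¹ * (x * y)⁻¹ ≠ p :=
    fun h e => h.mono (fun _ hx => hx.mono (fun _ hy => hy ▸ e))
  have v2 : ∀ {p : G},
      (¬ ∀ᶠ x in hyperfilter G, ∀ᶠ y in hyperfilter G, (x * y)⁻¹ * (x * y)⁻¹ = p) →
      ∀ᶠ x in hyperfilter G, ∀ᶠ y in hyperfilter G, (x * y)⁻¹ * (x * y)⁻¹ ≠ p :=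
    fun h => (Ultrafilter.eventually_not.2 h).mono (fun _ hx => Ultrafilter.eventually_not.2 hx)
  by_cases h1 : ∃ s : G, ∀ᶠ x in hyperfilter G, x * x = s <;>
  by_cases h2 : ∃ t : G, ∀ᶠ x in hyperfilter G, ∀ᶠ y in hyperfilter G, (x * y)⁻¹ * (x * y)⁻¹ = t
  · obtain ⟨s, hs⟩ := h1
    obtain ⟨t, ht⟩ := h2
    obtain ⟨A, h3, h4, h5, h6⟩ := pick (ev_inf hs) (i2 ht)
    exact ⟨A, h3, h6, fun p hp => ⟨u1 hs (fun e => hp (e ▸ h4)), u2 ht (fun e => hp (e ▸ h5))⟩⟩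
  · obtain ⟨s, hs⟩ := h1
    obtain ⟨A, h3, h4, h5, h6⟩ := pick (ev_inf hs) (ev_inf hs)
    exact ⟨A, h3, h6, fun p hp => ⟨u1 hs (fun e => hp (e ▸ h4)), v2 (fun h => h2 ⟨p, h⟩)⟩⟩
  · obtain ⟨t, ht⟩ := h2
    obtain ⟨A, h3, h4, h5, h6⟩ := pick (i2 ht) (i2 ht)
    exact ⟨A, h3, h6, fun p hp => ⟨Ultrafilter.eventually_not.2 (fun h => h1 ⟨p, h⟩),
      u2 ht (fun e => hp (e ▸ h5))⟩⟩
  · exact ⟨∅, Set.finite_empty, by simp, fun p _ =>
      ⟨Ultrafilter.eventually_not.2 (fun h => h1 ⟨p, h⟩), v2 (fun h => h2 ⟨p, h⟩)⟩⟩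

lemma step {A : Set G} (hA : ∀ p, p ∉ A * A → (∀ᶠ x in hyperfilter G, x * x ≠ p) ∧
      ∀ᶠ x in hyperfilter G, ∀ᶠ y in hyperfilter G, (x * y)⁻¹ * (x * y)⁻¹ ≠ p)
    (E : Set G) (hE : E.Finite) : ∃ T : Set G, T.Finite ∧ Disjoint T E ∧ 1 ∈ T * T * T ∧
      ∀ u ∈ T, ∀ v ∈ E ∪ T, ∀ p ∈ E * E, p ∉ A * A → u * v ≠ p ∧ v * u ≠ p := by
  have h1 : ∀ᶠ x in hyperfilter G, ∀ᶠ y in hyperfilter G, ∀ e ∈ E,
      (x ≠ e ∧ y ≠ e ∧ (x * y)⁻¹ ≠ e) ∧ ∀ p ∈ E * E, (x * e ≠ p ∧ e * x ≠ p) ∧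
        (y * e ≠ p ∧ e * y ≠ p) ∧ (x * y)⁻¹ * e ≠ p ∧ e * (x * y)⁻¹ ≠ p := by
    simp only [eventually_all_finite hE, eventually_all_finite (hE.mul hE), eventually_and,
      eventually_const]
    refine fun e _ => ⟨⟨ev_ne Function.injective_id e, ev_ne Function.injective_id e,
      .of_forall (fun x => ev_ne (fun a b h => by simpa using h) e)⟩, fun p _ =>
      ⟨⟨ev_ne (mul_left_injective e) p, ev_ne (mul_right_injective e) p⟩,
       ⟨ev_ne (mul_left_injective e) p, ev_ne (mul_right_injective e) p⟩,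
       .of_forall (fun x => ev_ne (fun a b h => by simpa using h) p),
       .of_forall (fun x => ev_ne (fun a b h => by simpa using h) p)⟩⟩
  have h2 : ∀ᶠ x in hyperfilter G, ∀ᶠ y in hyperfilter G, ∀ p ∈ E * E,
      (p ∉ A * A → x * x ≠ p ∧ y * y ≠ p ∧ (x * y)⁻¹ * (x * y)⁻¹ ≠ p) ∧
      x * y ≠ p ∧ y * x ≠ p ∧ x * (x * y)⁻¹ ≠ p ∧ (x * y)⁻¹ * x ≠ p ∧ y * (x * y)⁻¹ ≠ p ∧
        (x * y)⁻¹ * y ≠ p := by
    simp only [eventually_all_finite (hE.mul hE), eventually_and, eventually_imp_distrib_left,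
      eventually_const]
    refine fun p _ => ⟨fun hp => ⟨(hA p hp).1, (hA p hp).1, (hA p hp).2⟩,
      .of_forall (fun x => ev_ne (fun a b h => by simpa using h) p),
      .of_forall (fun x => ev_ne (fun a b h => by simpa using h) p),
      .of_forall (fun x => ev_ne (fun a b h => by simpa using h) p),
      .of_forall (fun x => ev_ne (fun a b h => by simpa using h) p), ?_, ?_⟩
    · exact (ev_ne inv_injective p).mono (fun x hx => .of_forall (fun y => by simpa using hx))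
    · have : {x : G | ∀ᶠ y in hyperfilter G, (x * y)⁻¹ * y = p}.Subsingleton := by
        intro a ha b hb
        obtain ⟨y, h, h'⟩ := (Eventually.and ha hb).exists
        simpa using h.trans h'.symm
      exact mem_of_superset (compl_mem_hyperfilter_of_finite this.finite)
        (fun x hx => Ultrafilter.eventually_not.2 hx)
  obtain ⟨x, hx1, hx2⟩ := (h1.and h2).exists
  obtain ⟨y, h3, h4⟩ := (hx1.and hx2).exists
  refine ⟨{x, y, (x * y)⁻¹}, Set.toFinite _, Set.disjoint_left.2 ?_,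
    ⟨_, ⟨x, by simp, y, by simp, rfl⟩, (x * y)⁻¹, by simp, mul_inv_cancel _⟩, ?_⟩
  · rintro u (rfl | rfl | rfl) hu
    exacts [(h3 _ hu).1.1 rfl, (h3 _ hu).1.2.1 rfl, (h3 _ hu).1.2.2 rfl]
  · intro u hu v hv p hp hp'
    obtain ⟨h5, h6⟩ := h4 p hp
    have h7 := h5 hp'
    rcases hv with hv | hv
    · have := (h3 v hv).2 p hp
      rcases hu with rfl | rfl | rfl <;> tauto
    · rcases hu with rfl | rfl | rfl <;> rcases hv with rfl | rfl | rfl <;> tauto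

theorem result (G : Type u) [Group G] [Infinite G] :
    ∃ A : ℕ → Set G, Antitone A ∧ (∀ n, ∃ q, n ≤ q ∧ A (q + 1) ≠ A q) ∧
      (⋂ q, A q) ^ 2 = ⋂ q, A q ^ 2 ∧ (⋂ q, A q) ^ 3 ≠ ⋂ q, A q ^ 3 ∧
      {h : ℕ | 1 ≤ h ∧ (⋂ q, A q) ^ h = ⋂ q, A q ^ h} ≠ {1} ∧
      {h : ℕ | 1 ≤ h ∧ (⋂ q, A q) ^ h = ⋂ q, A q ^ h} ≠ {h : ℕ | 1 ≤ h} := by
  obtain ⟨A, hA, h1, h2⟩ := base (G := G)
  choose! T t1 t2 t3 t4 using step h2
  let E : ℕ → Set G := fun n => Nat.rec A (fun _ S => S ∪ T S) n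
  have eS : ∀ n, E (n + 1) = E n ∪ T (E n) := fun _ => rfl
  have eF : ∀ n, (E n).Finite := by
    intro n
    induction n with
    | zero => exact hA
    | succ n ih => exact ih.union (t1 _ ih)
  have eM : Monotone E := monotone_nat_of_le_succ (fun n => Set.subset_union_left)
  let B : ℕ → Set G := fun q => A ∪ {u | ∃ i, q ≤ i ∧ u ∈ T (E i)}
  have eT : ∀ {i j u}, i < j → u ∈ T (E i) → u ∈ E j := fun h hu => eM h (Or.inr hu)
  have eA : ∀ j, A ⊆ E j := fun j => eM (Nat.zero_le j)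
  have bE : ∀ q, ∀ u ∈ B q, ∃ j, u ∈ E j := by
    rintro q u (h | ⟨i, _, h⟩)
    exacts [⟨0, h⟩, ⟨i + 1, Or.inr h⟩]
  have hI : ⋂ q, B q = A := by
    refine Set.Subset.antisymm (fun u hu => ?_) (Set.subset_iInter (fun q => Set.subset_union_left))
    obtain ⟨j, hj⟩ := bE 0 u (Set.mem_iInter.1 hu 0)
    rcases Set.mem_iInter.1 hu j with h | ⟨i, hi, h⟩
    · exact h
    · exact absurd (eM hi hj) (Set.disjoint_left.1 (t2 _ (eF i)) h)
  have hT : ∀ q, T (E q) ⊆ B q := fun q u hu => Or.inr ⟨q, le_rfl, hu⟩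
  have k2 : (⋂ q, B q) ^ 2 = ⋂ q, B q ^ 2 := by
    rw [hI]
    simp only [pow_two]
    refine Set.Subset.antisymm (Set.subset_iInter (fun q =>
      Set.mul_subset_mul Set.subset_union_left Set.subset_union_left)) (fun p hp => ?_)
    by_contra hp'
    obtain ⟨a, ha, b, hb, e⟩ := Set.mem_iInter.1 hp 0
    obtain ⟨i, hi⟩ := bE 0 a ha
    obtain ⟨j, hj⟩ := bE 0 b hb
    have hE : ∀ k, max i j ≤ k → p ∈ E k * E k := fun k hk =>
      ⟨a, eM ((le_max_left i j).trans hk) hi, b, eM ((le_max_right i j).trans hk) hj, e⟩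
    obtain ⟨u, hu | ⟨k, hk, hu⟩, v, hv | ⟨l, hl, hv⟩, e⟩ := Set.mem_iInter.1 hp (max i j)
    · exact hp' ⟨u, hu, v, hv, e⟩
    · exact (t4 _ (eF l) v hv u (Or.inl (eA l hu)) p (hE l hl) hp').2 e
    · exact (t4 _ (eF k) u hu v (Or.inl (eA k hv)) p (hE k hk) hp').1 e
    · rcases le_total k l with h | h
      · exact (t4 _ (eF l) v hv u (eT (Nat.lt_succ_of_le h) hu) p (hE l hl) hp').2 e
      · exact (t4 _ (eF k) u hu v (eT (Nat.lt_succ_of_le h) hv) p (hE k hk) hp').1 e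
  have k3 : (⋂ q, B q) ^ 3 ≠ ⋂ q, B q ^ 3 := by
    rw [hI]
    simp only [pow_three']
    intro e
    refine h1 (e ▸ Set.mem_iInter.2 (fun q => ?_))
    exact Set.mul_subset_mul (Set.mul_subset_mul (hT q) (hT q)) (hT q) (t3 _ (eF q))
  refine ⟨B, fun a b hab u hu => hu.imp id (fun ⟨i, hi, h⟩ => ⟨i, hab.trans hi, h⟩),
    fun n => ⟨n, le_rfl, fun e => ?_⟩, k2, k3, fun e => ?_, fun e => ?_⟩
  · obtain ⟨_, _, u, hu, _⟩ := t3 _ (eF n)
    rcases e.symm ▸ hT n hu with h | ⟨i, hi, h⟩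
    · exact Set.disjoint_left.1 (t2 _ (eF n)) hu (eA n h)
    · exact Set.disjoint_left.1 (t2 _ (eF i)) h (eT hi hu)
  · have : 2 ∈ ({1} : Set ℕ) := e ▸ ⟨by norm_num, k2⟩
    simp at this
  · have : 3 ∈ {h : ℕ | 1 ≤ h ∧ (⋂ q, B q) ^ h = ⋂ q, B q ^ h} := e ▸ (by simp)
    exact k3 this.2

end Pool.Agent.Results.MP_1adc52_al.Inter
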